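import Mathlib
import Pool.Agent.H661R3.SQ.Final2

/-!
Chowla products of the Möbius function with an odd number of exponents equal to one: both signs occur
for at least `x ^ (1 - η)` integers `n ≤ x` for which every shifted number `n + α_i` is a fixed
squarefree number `g_i` times a number without prime factors up to `x ^ δ`.
-/

open Finset

namespace Pool.Agent.Results.MP_c59857_nt.OddOrderAlmostPrimes

/-- The product `μ(n + α_1)^{ε_1} ⋯ μ(n + α_r)^{ε_r}` of the problem (with `μ(m) = 0` for
`m ≤ 0`). -/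
def P {r : ℕ} (α : Fin r → ℤ) (ε : Fin r → ℕ) (n : ℕ) : ℤ :=
  ∏ i : Fin r, ArithmeticFunction.moebius (((n : ℤ) + α i).toNat) ^ ε i

/-- `g` is a locally possible choice of the small squarefree parts of the numbers `n + α_i`: for every
prime `p` there is an integer `n` such that no `n + α_i` is divisible by `p²`, and `n + α_i` is
divisible by `p` exactly when `g_i` is. -/
def Local {r : ℕ} (α : Fin r → ℤ) (g : Fin r → ℕ) : Prop :=
  ∀ p : ℕ, p.Prime → ∃ n : ℤ, ∀ i, ¬ (p : ℤ) ^ 2 ∣ n + α i ∧ ((p : ℤ) ∣ n + α i ↔ p ∣ g i)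

/-- If the shifts miss a residue class modulo `p²` for every prime `p ≤ r`, a locally possible choice
of squarefree numbers `g_i`, composed of primes `≤ r`, exists. -/
theorem exists_local {r : ℕ} (α : Fin r → ℤ)
    (h : ∀ p : ℕ, p.Prime → p ≤ r → ∃ n : ℤ, ∀ i, ¬ (p : ℤ) ^ 2 ∣ n + α i) :
    ∃ g : Fin r → ℕ, (∀ i, Squarefree (g i)) ∧ (∀ i, ∀ p : ℕ, p.Prime → p ∣ g i → p ≤ r) ∧
      Local α g := by
  classical
  choose! c hc using h
  have hprod : ∀ (s : Finset ℕ), (∀ q ∈ s, q.Prime) → ∀ p : ℕ, p.Prime →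
      (p ∣ ∏ q ∈ s, q ↔ p ∈ s) := by
    intro s hs p hp
    rw [hp.prime.dvd_finsetProd_iff]
    constructor
    · rintro ⟨q, hq, hpq⟩
      rwa [(Nat.prime_dvd_prime_iff_eq hp (hs q hq)).1 hpq]
    · intro hps
      exact ⟨p, hps, dvd_rfl⟩
  set s : Fin r → Finset ℕ := fun i =>
    (Finset.range (r + 1)).filter (fun q => q.Prime ∧ (q : ℤ) ∣ c q + α i) with hs
  have hsp : ∀ i, ∀ q ∈ s i, q.Prime := fun i q hq => (Finset.mem_filter.1 hq).2.1
  refine ⟨fun i => ∏ q ∈ s i, q, ?_, ?_, ?_⟩
  · intro i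
    refine Finset.squarefree_prod_of_pairwise_isCoprime ?_ fun q hq => (hsp i q hq).squarefree
    intro p hp q hq hne
    exact Nat.coprime_iff_isRelPrime.1 ((Nat.coprime_primes (hsp i p hp) (hsp i q hq)).2 hne)
  · intro i p hp hpd
    have := (hprod (s i) (hsp i) p hp).1 hpd
    have := Finset.mem_range.1 (Finset.mem_filter.1 this).1
    omega
  · intro p hp
    by_cases hpr : p ≤ r
    · refine ⟨c p, fun i => ⟨hc p hp hpr i, ?_⟩⟩
      rw [hprod (s i) (hsp i) p hp, hs, Finset.mem_filter, Finset.mem_range]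
      constructor
      · intro h1
        exact ⟨by omega, hp, h1⟩
      · rintro ⟨-, -, h1⟩
        exact h1
    · push Not at hpr
      obtain ⟨z, hz, hz2⟩ : ∃ z ∈ Finset.range p, ∀ i, ¬ (p : ℤ) ∣ (z : ℤ) + α i := by
        by_contra hcon
        push Not at hcon
        haveI : Nonempty (Fin r) := by
          obtain ⟨i, -⟩ := hcon 0 (Finset.mem_range.2 hp.pos)
          exact ⟨i⟩
        choose! f hf using hcon
        have hinj : Set.InjOn f (Finset.range p) := by
          intro a ha b hb hab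
          have h1 := hf a ha
          have h2 := hf b hb
          rw [hab] at h1
          have h3 : (p : ℤ) ∣ (a : ℤ) - b := by
            have := dvd_sub h1 h2
            have e : ((a : ℤ) + α (f b)) - (b + α (f b)) = a - b := by ring
            rwa [e] at this
          have ha' := Finset.mem_range.1 ha
          have hb' := Finset.mem_range.1 hb
          obtain ⟨k, hk⟩ := h3
          have hk0 : k = 0 := by
            by_contra hk0
            rcases lt_or_gt_of_ne hk0 with h | h <;> nlinarith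
          rw [hk0] at hk
          omega
        have h1 := Finset.card_le_card_of_injOn (s := Finset.range p)
          (t := (Finset.univ : Finset (Fin r))) f (fun a _ => Finset.mem_coe.2 (Finset.mem_univ _)) hinj
        rw [Finset.card_range, Finset.card_univ, Fintype.card_fin] at h1
        omega
      refine ⟨z, fun i => ⟨fun h2 => hz2 i (dvd_trans (dvd_pow_self _ two_ne_zero) h2), ?_⟩⟩
      rw [hprod (s i) (hsp i) p hp]
      constructor
      · intro h1
        exact absurd h1 (hz2 i)
      · intro h1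
        have := Finset.mem_range.1 (Finset.mem_filter.1 h1).1
        omega

/-- Let `α_1, …, α_r` be distinct integers and let `ε ∈ {1, 2}^r` have an odd number of entries `1`.
If the `α_i` miss a residue class modulo `p²` for every prime `p ≤ r`, there are squarefree numbers
`g_i` composed of primes `≤ r` which satisfy the local condition; and for every choice of squarefree
numbers `g_i` which satisfies the local condition and every `η > 0` there is `δ > 0` such that for all
large `x` and both signs `s`, the product `P α ε n` equals `s` for at least `x ^ (1 - η)` integers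
`1 ≤ n ≤ x` for which every `n + α_i` is `g_i` times a number all of whose prime factors exceed
`x ^ δ`. -/
theorem result (r : ℕ) (α : Fin r → ℤ) (hα : Function.Injective α) (ε : Fin r → ℕ)
    (hε : ∀ i, ε i = 1 ∨ ε i = 2) (hodd : Odd {i | ε i = 1}.ncard) :
    ((∀ p : ℕ, p.Prime → p ≤ r → ∃ n : ℤ, ∀ i, ¬ (p : ℤ) ^ 2 ∣ n + α i) →
      ∃ g : Fin r → ℕ, (∀ i, Squarefree (g i)) ∧ (∀ i, ∀ p : ℕ, p.Prime → p ∣ g i → p ≤ r) ∧
        Local α g) ∧
    ∀ g : Fin r → ℕ, (∀ i, Squarefree (g i)) → Local α g → ∀ η : ℝ, 0 < η →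
      ∃ δ : ℝ, 0 < δ ∧ ∃ x₀ : ℝ, ∀ x : ℝ, x₀ ≤ x → ∀ s : ℤ, (s = 1 ∨ s = -1) →
        x ^ (1 - η) ≤ (({n : ℕ | 0 < n ∧ (n : ℝ) ≤ x ∧
          (∀ i, ∃ m : ℕ, (n : ℤ) + α i = g i * m ∧ ∀ p : ℕ, p.Prime → p ∣ m → x ^ δ < p) ∧
          P α ε n = s}.ncard : ℕ) : ℝ) := by
  refine ⟨exists_local α, ?_⟩
  intro g hg hloc η hη
  obtain ⟨δ, hδ, x₀, H⟩ := Pool.Agent.H661R3.SQ.patExp (Fin r) (fun _ => 1) α g ε hε
    (fun _ => one_pos) (by
      intro i j hij
      push_cast
      intro h
      apply hij
      apply hα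
      linarith) hg hodd (by
      intro p hp
      obtain ⟨n, hn⟩ := hloc p hp
      exact ⟨n, fun i => by simpa using hn i⟩) η hη
  refine ⟨δ, hδ, x₀, fun x hx s hs => (H x hx s hs).trans (le_of_eq ?_)⟩
  congr 2
  ext n
  simp only [Set.mem_ofPred_eq, P, Nat.cast_one, one_mul]

end Pool.Agent.Results.MP_c59857_nt.OddOrderAlmostPrimes
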