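import Mathlib
import Pool.Agent.H373R2.T7.SegEA
import Pool.Agent.H373R2.T7.SupLiou

/-!
# Chowla's conjecture for the Moebius function, for almost all vectors of polynomial shifts

The analytic work (mean values over polynomial sequences, bilinear estimates, exponential sums of the
Moebius function with arbitrary logarithmic savings) is in the starting files
`Pool/Agent/H373R2/T7/`.
-/

set_option autoImplicit false

namespace Pool.Agent.Results.MP_c59857_nt.PolynomialShiftVectors

open Finset Polynomial Pool.Agent.H373R2.T7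

/-- the Moebius function of an integer, zero if the integer is not positive -/
def mu (z : ℤ) : ℤ := if 1 ≤ z then ArithmeticFunction.moebius z.toNat else 0

/-- `∑ c(n) μ(n + α_1)^ε_1 ⋯ μ(n + α_k)^ε_k` over the `n` with `1 ≤ n ≤ N` and `n ≡ b mod q` -/
noncomputable def S {k : ℕ} (c : ℕ → ℝ) (α : Fin k → ℤ) (ε : Fin k → ℕ) (q b N : ℕ) : ℝ :=
  ∑ n ∈ (Icc 1 N).filter (fun n => n ≡ b [MOD q]), c n * ∏ i, (mu ((n : ℤ) + α i) : ℝ) ^ ε i

lemma mu_abs (z : ℤ) : |(mu z : ℝ)| ≤ 1 := by
  have h : |mu z| ≤ 1 := by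
    unfold mu
    split_ifs
    · exact ArithmeticFunction.abs_moebius_le_one
    · simp
  exact_mod_cast h

lemma exI_muC (z : ℤ) : exI muC z = ((mu z : ℝ) : ℂ) := by
  unfold exI mu muC
  split_ifs <;> push_cast <;> rfl

/-- counting in fibres -/
lemma fiber_bound {k : ℕ} (s : Fin k → Finset ℕ) (i : Fin k) (P : (Fin k → ℕ) → Prop)
    [DecidablePred P] (c : ℝ)
    (hc : ∀ m : Fin k → ℕ, (((s i).filter (fun t => P (Function.update m i t))).card : ℝ) ≤ c) :
    (((Fintype.piFinset s).filter P).card : ℝ) ≤ (∏ j ∈ univ.erase i, ((s j).card : ℝ)) * c := by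
  classical
  set T := Fintype.piFinset (fun j => if j = i then ({0} : Finset ℕ) else s j) with hT
  have hmaps : ∀ m ∈ (Fintype.piFinset s).filter P, Function.update m i 0 ∈ T := by
    intro m hm
    rw [mem_filter, Fintype.mem_piFinset] at hm
    rw [hT, Fintype.mem_piFinset]
    intro j
    by_cases hj : j = i
    · subst hj; simp
    · rw [if_neg hj, Function.update_of_ne hj]
      exact hm.1 j
  have h1 := card_eq_sum_card_fiberwise hmaps
  have h2 : ∀ u ∈ T, ((((Fintype.piFinset s).filter P).filter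
      (fun m => Function.update m i 0 = u)).card : ℝ) ≤ c := by
    intro u _
    refine le_trans ?_ (hc u)
    have h3 : (((Fintype.piFinset s).filter P).filter
      (fun m => Function.update m i 0 = u)).card ≤
      ((s i).filter (fun t => P (Function.update u i t))).card := by
      apply card_le_card_of_injOn (fun m => m i)
      · intro m hm
        rw [mem_coe, mem_filter, mem_filter, Fintype.mem_piFinset] at hm
        rw [mem_coe, mem_filter]
        refine ⟨hm.1.1 i, ?_⟩
        have h4 : Function.update u i (m i) = m := by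
          rw [← hm.2, Function.update_idem, Function.update_eq_self]
        rw [h4]
        exact hm.1.2
      · intro m hm m' hm' heq
        rw [mem_coe, mem_filter] at hm hm'
        have h5 : m = Function.update (Function.update m i 0) i (m i) := by
          rw [Function.update_idem, Function.update_eq_self]
        have h6 : m' = Function.update (Function.update m' i 0) i (m' i) := by
          rw [Function.update_idem, Function.update_eq_self]
        rw [h5, h6, hm.2, hm'.2]
        simp only at heq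
        rw [heq]
    exact_mod_cast h3
  have hTc : (T.card : ℝ) = ∏ j ∈ univ.erase i, ((s j).card : ℝ) := by
    rw [hT, Fintype.card_piFinset]
    push_cast
    rw [← mul_prod_erase univ _ (mem_univ i)]
    simp only [if_true, card_singleton, Nat.cast_one, one_mul]
    refine prod_congr rfl fun j hj => ?_
    rw [if_neg (ne_of_mem_erase hj)]
  rw [h1]
  push_cast
  calc ∑ u ∈ T, ((((Fintype.piFinset s).filter P).filter
      (fun m => Function.update m i 0 = u)).card : ℝ) ≤ ∑ u ∈ T, c := sum_le_sum h2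
    _ = _ := by rw [sum_const, nsmul_eq_mul, hTc]

open Classical in
/-- the number of bad values of one shift -/
lemma one_shift {k : ℕ} (f : Fin k → ℤ[X]) (i : Fin k) (hd : 1 ≤ (f i).natDegree)
    (hl : 0 < (f i).leadingCoeff) (B U V : ℕ) (hUV : U ≤ V) :
    ∃ N₀ : ℕ, ∀ N : ℕ, N₀ ≤ N → ∀ x : ℕ, N ≤ B * x ^ (f i).natDegree → x ^ (f i).natDegree ≤ B * N →
    ∀ c : ℕ → ℝ, (∀ n, |c n| ≤ 1) → ∀ (ε : Fin k → ℕ), ε i = 1 → ∀ (q b : ℕ) (m : Fin k → ℕ),
      (((Icc 1 x).filter (fun t : ℕ => ∃ N' : ℕ, N' ≤ N ∧ N / Real.log N ^ U <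
        |S c (fun j => (f j).eval ((Function.update m i t j : ℕ) : ℤ)) ε q b N'|)).card : ℝ) ≤
        x / Real.log N ^ V := by
  obtain ⟨N1, h1⟩ := seg_pa muC muC_norm sup_muC (f i) hd hl B 0 V
  refine ⟨max N1 3, fun N hN x hx1 hx2 c hc ε hε q b m => ?_⟩
  have hN3 : 3 ≤ N := (le_max_right _ _).trans hN
  have hNr : (3:ℝ) ≤ N := by exact_mod_cast hN3
  have hL1 : 1 ≤ Real.log N := by
    rw [Real.le_log_iff_exp_le (by linarith)]
    have := Real.exp_one_lt_d9
    linarith
  set L := Real.log N with hL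
  have hL0 : 0 < L := by linarith
  set g : ℕ → ℝ := fun n => if n ≡ b [MOD q] then
    c n * ∏ j ∈ univ.erase i, (mu ((n : ℤ) + (f j).eval ((m j : ℕ) : ℤ)) : ℝ) ^ ε j else 0 with hg
  have hgn : ∀ n, |g n| ≤ 1 := by
    intro n
    rw [hg]
    simp only
    split_ifs
    · rw [abs_mul, abs_prod]
      refine mul_le_one₀ (hc n) (prod_nonneg fun _ _ => abs_nonneg _) ?_
      refine prod_le_one (fun _ _ => abs_nonneg _) fun j _ => ?_
      rw [abs_pow]
      exact pow_le_one₀ (abs_nonneg _) (mu_abs _)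
    · simp
  have key := h1 N ((le_max_left _ _).trans hN) 1 le_rfl (by simp) x (by simpa using hx1)
    (by simpa using hx2) (fun n => ((g n : ℝ) : ℂ)) (fun n => by
      rw [Complex.norm_real, Real.norm_eq_abs]; exact hgn n)
  have hsum : ∀ t N' : ℕ,
      |S c (fun j => (f j).eval ((Function.update m i t j : ℕ) : ℤ)) ε q b N'| =
      ‖∑ n ∈ Icc 1 N', ((g n : ℝ) : ℂ) * exI muC (((1 : ℕ) : ℤ) * n + (f i).eval (t : ℤ))‖ := by
    intro t N'
    rw [← Real.norm_eq_abs, ← Complex.norm_real]
    congr 1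
    unfold S
    rw [sum_filter]
    push_cast
    refine sum_congr rfl fun n _ => ?_
    rw [exI_muC, hg]
    simp only
    by_cases hn : n ≡ b [MOD q]
    · rw [if_pos hn, if_pos hn, ← mul_prod_erase univ _ (mem_univ i)]
      have e1 : ∏ j ∈ univ.erase i, ((mu ((n : ℤ) + (f j).eval
          ((Function.update m i t j : ℕ) : ℤ)) : ℤ) : ℝ) ^ ε j =
          ∏ j ∈ univ.erase i, ((mu ((n : ℤ) + (f j).eval ((m j : ℕ) : ℤ)) : ℤ) : ℝ) ^ ε j := by
        refine prod_congr rfl fun j hj => ?_
        rw [Function.update_of_ne (ne_of_mem_erase hj)]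
      rw [e1, Function.update_self, hε, pow_one]
      push_cast
      rw [one_mul]
      ring
    · rw [if_neg hn, if_neg hn]
      simp
  refine le_trans ?_ key
  have hsub : (Icc 1 x).filter (fun t : ℕ => ∃ N' : ℕ, N' ≤ N ∧ N / L ^ U <
        |S c (fun j => (f j).eval ((Function.update m i t j : ℕ) : ℤ)) ε q b N'|) ⊆
      (Icc 1 x).filter (fun t : ℕ => ∃ N' : ℕ, N' ≤ N ∧ N / L ^ V <
        ‖∑ n ∈ Icc 1 N', ((g n : ℝ) : ℂ) * exI muC (((1 : ℕ) : ℤ) * n + (f i).eval (t : ℤ))‖) := by
    intro t ht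
    rw [mem_filter] at ht ⊢
    obtain ⟨ht1, N', hN', hb⟩ := ht
    refine ⟨ht1, N', hN', ?_⟩
    rw [← hsum]
    refine lt_of_le_of_lt ?_ hb
    apply div_le_div_of_nonneg_left (Nat.cast_nonneg _) (pow_pos hL0 _)
    exact pow_le_pow_right₀ hL1 hUV
  exact_mod_cast card_le_card hsub

open Classical in
/-- **Chowla's conjecture for the Moebius function for almost all vectors of polynomial shifts.**
Let `f_1, ..., f_k` be nonconstant integer polynomials with positive leading coefficients, let `c` be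
any real weights with `|c n| ≤ 1` (for instance products of values `μ(n + β)^δ` at fixed shifts) and
let `x_i ^ deg f_i` be of the order of magnitude of `N`. For all vectors `(m_1, ..., m_k)`,
`1 ≤ m_i ≤ x_i`, but at most `x_1 ⋯ x_k / (log N)^U` of them, the sums of
`c(n) μ(n + f_1(m_1))^ε_1 ⋯ μ(n + f_k(m_k))^ε_k` are at most `N / (log N)^U` in absolute value,
simultaneously for all `ε ∈ {1,2}^k` not all equal to `2` and over all initial segments `n ≤ N' ≤ N`
of all residue classes modulo all `q ≤ (log N)^K`. -/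
theorem result (k : ℕ) (f : Fin k → ℤ[X]) (hd : ∀ i, 1 ≤ (f i).natDegree)
    (hl : ∀ i, 0 < (f i).leadingCoeff) (B K U : ℕ) :
    ∃ N₀ : ℕ, ∀ N : ℕ, N₀ ≤ N → ∀ x : Fin k → ℕ,
    (∀ i, N ≤ B * x i ^ (f i).natDegree ∧ x i ^ (f i).natDegree ≤ B * N) →
    ∀ c : ℕ → ℝ, (∀ n, |c n| ≤ 1) →
      (((Fintype.piFinset (fun i => Icc 1 (x i))).filter (fun m : Fin k → ℕ =>
        ∃ (ε : Fin k → ℕ) (q b N' : ℕ), (∀ i, ε i = 1 ∨ ε i = 2) ∧ (∃ i, ε i = 1) ∧
          1 ≤ q ∧ (q : ℝ) ≤ Real.log N ^ K ∧ N' ≤ N ∧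
          N / Real.log N ^ U < |S c (fun i => (f i).eval (m i : ℤ)) ε q b N'|)).card : ℝ) ≤
        (∏ i, (x i : ℝ)) / Real.log N ^ U := by
  set V := U + 2 * K + 1 with hV
  choose N1 h1 using fun i => one_shift f i (hd i) (hl i) B U V (by omega)
  have hev : ∀ᶠ N : ℕ in Filter.atTop, ((k : ℝ) * 2 ^ k + 1) ≤ Real.log N :=
    (Real.tendsto_log_atTop.comp tendsto_natCast_atTop_atTop).eventually_ge_atTop _
  obtain ⟨N2, hN2⟩ := Filter.eventually_atTop.1 hev
  refine ⟨max (univ.sup N1) N2, fun N hN x hx c hc => ?_⟩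
  have hN1 : ∀ i, N1 i ≤ N := fun i =>
    (le_sup (f := N1) (mem_univ i)).trans ((le_max_left _ _).trans hN)
  have hLk := hN2 N ((le_max_right _ _).trans hN)
  set L := Real.log N with hL
  have hk0 : (0:ℝ) ≤ (k : ℝ) * 2 ^ k := by positivity
  have hL1 : 1 ≤ L := by linarith
  have hL0 : 0 < L := by linarith
  have hLp0 : ∀ n : ℕ, 0 < L ^ n := fun n => pow_pos hL0 n
  set M := ⌊L ^ K⌋₊ with hM
  have hMle : (M:ℝ) ≤ L ^ K := Nat.floor_le (hLp0 K).le
  -- the bad sets
  set X : ℝ := ∏ i, (x i : ℝ) with hX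
  have hX0 : 0 ≤ X := prod_nonneg fun _ _ => Nat.cast_nonneg _
  set Bad : Fin k × (Fin k → Bool) × ℕ × ℕ → Finset (Fin k → ℕ) := fun p =>
    if p.2.1 p.1 = true then
      (Fintype.piFinset (fun i => Icc 1 (x i))).filter (fun m : Fin k → ℕ =>
        ∃ N' : ℕ, N' ≤ N ∧ N / L ^ U < |S c (fun i => (f i).eval (m i : ℤ))
          (fun i => if p.2.1 i = true then 1 else 2) (p.2.2.1 + 1) p.2.2.2 N'|)
    else ∅ with hBad
  set I : Finset (Fin k × (Fin k → Bool) × ℕ × ℕ) := univ ×ˢ (univ ×ˢ (range M ×ˢ range M)) with hI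
  have hIc : (I.card : ℝ) = (k : ℝ) * 2 ^ k * ((M:ℝ) * M) := by
    rw [hI, card_product, card_product, card_product, card_range, card_univ, card_univ,
      Fintype.card_fin, Fintype.card_fun, Fintype.card_bool, Fintype.card_fin]
    push_cast
    ring
  have hBc : ∀ p ∈ I, ((Bad p).card : ℝ) ≤ X / L ^ V := by
    rintro ⟨i, e, q, b⟩ _
    rw [hBad]
    simp only
    split_ifs with hi
    · refine (fiber_bound (fun i => Icc 1 (x i)) i _ (x i / L ^ V) (fun m => ?_)).trans ?_
      · exact h1 i N (hN1 i) (x i) (hx i).1 (hx i).2 c hc _ (if_pos hi)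
          (q + 1) b m
      · apply le_of_eq
        simp only [Nat.card_Icc, Nat.add_sub_cancel]
        rw [hX, ← mul_prod_erase univ _ (mem_univ i)]
        ring
    · simp only [card_empty, Nat.cast_zero]
      exact div_nonneg hX0 (hLp0 V).le
  have hcov : (Fintype.piFinset (fun i => Icc 1 (x i))).filter (fun m : Fin k → ℕ =>
        ∃ (ε : Fin k → ℕ) (q b N' : ℕ), (∀ i, ε i = 1 ∨ ε i = 2) ∧ (∃ i, ε i = 1) ∧
          1 ≤ q ∧ (q : ℝ) ≤ L ^ K ∧ N' ≤ N ∧
          N / L ^ U < |S c (fun i => (f i).eval (m i : ℤ)) ε q b N'|) ⊆ I.biUnion Bad := by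
    intro m hm
    rw [mem_filter] at hm
    obtain ⟨hm1, ε, q, b, N', hε, ⟨i, hi⟩, hq, hqL, hN', hb⟩ := hm
    have hqM : q ≤ M := Nat.le_floor hqL
    have hbq : b % q < q := Nat.mod_lt _ hq
    rw [mem_biUnion]
    refine ⟨(i, fun j => decide (ε j = 1), q - 1, b % q), ?_, ?_⟩
    · rw [hI, mem_product, mem_product, mem_product]
      refine ⟨mem_univ _, mem_univ _, ?_, ?_⟩
      · change q - 1 ∈ range M
        rw [mem_range]
        omega
      · change b % q ∈ range M
        rw [mem_range]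
        omega
    · rw [hBad]
      simp only
      rw [if_pos (by simpa using hi), mem_filter]
      refine ⟨hm1, N', hN', ?_⟩
      have e1 : (fun j => if decide (ε j = 1) = true then 1 else 2) = ε := by
        funext j
        rcases hε j with h | h
        · simp [h]
        · simp [h]
      rw [e1, show q - 1 + 1 = q by omega]
      have e2 : S c (fun i => (f i).eval (m i : ℤ)) ε q (b % q) N' =
          S c (fun i => (f i).eval (m i : ℤ)) ε q b N' := by
        unfold S
        congr 1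
        apply filter_congr
        intro n _
        unfold Nat.ModEq
        rw [Nat.mod_mod]
      rw [e2]
      exact hb
  have h5 := (card_le_card hcov).trans card_biUnion_le
  have h6 := (Nat.cast_le (α := ℝ)).2 h5
  push_cast at h6
  refine h6.trans ?_
  calc ∑ p ∈ I, ((Bad p).card : ℝ) ≤ ∑ p ∈ I, X / L ^ V := sum_le_sum hBc
    _ = ((k : ℝ) * 2 ^ k * ((M:ℝ) * M)) * (X / L ^ V) := by rw [sum_const, nsmul_eq_mul, hIc]
    _ ≤ (L * (L ^ K * L ^ K)) * (X / L ^ V) := by
        apply mul_le_mul_of_nonneg_right _ (div_nonneg hX0 (hLp0 V).le)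
        apply mul_le_mul (by linarith) _ (by positivity) hL0.le
        exact mul_le_mul hMle hMle (Nat.cast_nonneg _) (hLp0 K).le
    _ = X / L ^ U := by
        rw [hV, show U + 2 * K + 1 = U + (K + K + 1) by ring, pow_add L U, pow_succ L (K + K),
          pow_add L K K]
        have e7 : L ^ K ≠ 0 := (hLp0 K).ne'
        have e8 : L ^ U ≠ 0 := (hLp0 U).ne'
        field_simp

end Pool.Agent.Results.MP_c59857_nt.PolynomialShiftVectors
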